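import Pool.Agent.MP_1048c2_an.Defs

section

namespace Pool.Agent.MP_1048c2_an

open MeasureTheory Filter Topology

/-- Euclidean space of dimension four. -/
abbrev E4 : Type := EuclideanSpace ℝ (Fin 4)

/-- Points of the group. -/
abbrev Pt : Type := E4 × ℝ

/-- The standard basis. -/
noncomputable def basisVec (i : Fin 4) : E4 := EuclideanSpace.single i 1

/-- The complex structure of `ℝ^4`. -/
noncomputable def rot (z : E4) : E4 := !₂[-z 1, z 0, -z 3, z 2]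

/-- The symplectic form of `ℝ^4`. -/
def omega4 (z z' : E4) : ℝ := -z 1 * z' 0 + z 0 * z' 1 - z 3 * z' 2 + z 2 * z' 3

lemma norm_sq_euc4 (z : E4) : ‖z‖ ^ 2 = z 0 ^ 2 + z 1 ^ 2 + z 2 ^ 2 + z 3 ^ 2 := by
  simp [EuclideanSpace.norm_sq_eq, Fin.sum_univ_four]

/-- The Heisenberg algebra of dimension five. -/
noncomputable def heis2 : HeisenbergType 4 1 E4 ℝ where
  e := EuclideanSpace.basisFun (Fin 4) ℝ
  ε := OrthonormalBasis.singleton (Fin 1) ℝ
  bracket := omega4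
  bracket_linear_left := fun z' =>
    ⟨by intro a b; simp [omega4]; ring, by intro a b; simp [omega4]; ring⟩
  bracket_linear_right := fun z =>
    ⟨by intro a b; simp [omega4]; ring, by intro a b; simp [omega4]; ring⟩
  bracket_self := by
    intro z
    simp [omega4]; ring
  bracket_span := by
    rw [eq_top_iff]
    intro σ _
    apply Submodule.subset_span
    refine ⟨basisVec 0, σ • basisVec 1, ?_⟩
    simp [omega4, basisVec]
  J := fun σ z => σ • rot z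
  inner_J := by
    intro σ z z'
    simp [rot, omega4, PiLp.inner_apply, Fin.sum_univ_four]
    ring
  J_J := by
    intro σ z
    ext i
    fin_cases i <;> simp [rot] <;> ring

/-- The coordinates `z_i`. -/
noncomputable def cz (i : Fin 4) : Pt →L[ℝ] ℝ :=
  (EuclideanSpace.proj i).comp (ContinuousLinearMap.fst ℝ _ _)

/-- The coordinate `σ`. -/
noncomputable def cs : Pt →L[ℝ] ℝ :=
  ContinuousLinearMap.snd ℝ _ _

@[simp] lemma cz_apply (i : Fin 4) (x : Pt) : cz i x = x.1 i := rfl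
@[simp] lemma cs_apply (x : Pt) : cs x = x.2 := rfl

/-- `|z|^2`. -/
def rr (x : Pt) : ℝ := x.1 0 ^ 2 + x.1 1 ^ 2 + x.1 2 ^ 2 + x.1 3 ^ 2

/-- The modified quartic. -/
def NN (x : Pt) : ℝ :=
  rr x ^ 2 - 2 * (x.1 0 ^ 2 + x.1 1 ^ 2 - x.1 2 ^ 2 - x.1 3 ^ 2) + 1 + 16 * x.2 ^ 2

lemma hz (i : Fin 4) (x : Pt) : HasFDerivAt (fun y : Pt => y.1 i) (cz i) x :=
  (cz i).hasFDerivAt

lemma hs (x : Pt) : HasFDerivAt (fun y : Pt => y.2) cs x :=
  cs.hasFDerivAt

lemma contDiff_z (i : Fin 4) (n : WithTop ℕ∞) : ContDiff ℝ n (fun y : Pt => y.1 i) :=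
  (cz i).contDiff

lemma contDiff_s (n : WithTop ℕ∞) : ContDiff ℝ n (fun y : Pt => y.2) :=
  cs.contDiff

lemma contDiff_rr (n : WithTop ℕ∞) : ContDiff ℝ n rr := by
  have h0 := contDiff_z 0 n
  have h1 := contDiff_z 1 n
  have h2 := contDiff_z 2 n
  have h3 := contDiff_z 3 n
  unfold rr
  fun_prop

lemma contDiff_NN (n : WithTop ℕ∞) : ContDiff ℝ n NN := by
  have h0 := contDiff_z 0 n
  have h1 := contDiff_z 1 n
  have h2 := contDiff_z 2 n
  have h3 := contDiff_z 3 n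
  have h4 := contDiff_s n
  have h5 := contDiff_rr n
  unfold NN
  fun_prop

/-- The differential of `rr`. -/
noncomputable def dr (x : Pt) : Pt →L[ℝ] ℝ :=
  (2 * x.1 0) • cz 0 + (2 * x.1 1) • cz 1 + (2 * x.1 2) • cz 2 + (2 * x.1 3) • cz 3

lemma hr (x : Pt) : HasFDerivAt rr (dr x) x := by
  have := ((((hz 0 x).pow 2).add ((hz 1 x).pow 2)).add ((hz 2 x).pow 2)).add ((hz 3 x).pow 2)
  refine HasFDerivAt.congr_fderiv this ?_
  refine ContinuousLinearMap.ext fun v => ?_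
  simp [dr]

/-- The differential of `NN`. -/
noncomputable def dN (x : Pt) : Pt →L[ℝ] ℝ :=
  (4 * rr x * x.1 0 - 4 * x.1 0) • cz 0 + (4 * rr x * x.1 1 - 4 * x.1 1) • cz 1 +
    (4 * rr x * x.1 2 + 4 * x.1 2) • cz 2 + (4 * rr x * x.1 3 + 4 * x.1 3) • cz 3 +
    (32 * x.2) • cs

lemma hN (x : Pt) : HasFDerivAt NN (dN x) x := by
  have := (((((hr x).pow 2).sub ((((((hz 0 x).pow 2).add ((hz 1 x).pow 2)).sub
    ((hz 2 x).pow 2)).sub ((hz 3 x).pow 2)).const_mul 2)).add_const 1).add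
    (((hs x).pow 2).const_mul 16))
  refine HasFDerivAt.congr_fderiv this ?_
  refine ContinuousLinearMap.ext fun v => ?_
  simp [dN, dr]
  ring

end Pool.Agent.MP_1048c2_an

end

section

namespace Pool.Agent.MP_1048c2_an

open MeasureTheory Filter Topology

/-- The potential. -/
noncomputable def ff (x : Pt) : ℝ := 16 * (NN x)⁻¹

/-- The horizontal derivatives of `NN`, and the resulting vertical component. -/
def M0 (x : Pt) : ℝ := 4 * rr x * x.1 0 - 4 * x.1 0 - 16 * (x.1 1 * x.2)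
def M1 (x : Pt) : ℝ := 4 * rr x * x.1 1 - 4 * x.1 1 + 16 * (x.1 0 * x.2)
def M2 (x : Pt) : ℝ := 4 * rr x * x.1 2 + 4 * x.1 2 - 16 * (x.1 3 * x.2)
def M3 (x : Pt) : ℝ := 4 * rr x * x.1 3 + 4 * x.1 3 + 16 * (x.1 2 * x.2)
def Ms (x : Pt) : ℝ := 8 * (rr x * x.2)

/-- The coordinate directions. -/
noncomputable def vz (i : Fin 4) : Pt := (basisVec i, 0)
noncomputable def vs : Pt := (0, 1)

lemma heis_eps (i : Fin 1) : heis2.ε i = 1 := OrthonormalBasis.singleton_apply i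

lemma heis_e (i : Fin 4) : heis2.e i = basisVec i := EuclideanSpace.basisFun_apply _ _ i

lemma heis_J (σ : ℝ) (z : E4) : heis2.J σ z = σ • rot z := rfl

lemma X0 (g : Pt → ℝ) (x : Pt) :
    X heis2 0 g x = fderiv ℝ g x (vz 0) - x.1 1 / 2 * fderiv ℝ g x vs := by
  simp [X, heis_eps, heis_e, heis_J, rot, basisVec, vz, vs, PiLp.inner_apply]
  ring

lemma X1 (g : Pt → ℝ) (x : Pt) :
    X heis2 1 g x = fderiv ℝ g x (vz 1) + x.1 0 / 2 * fderiv ℝ g x vs := by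
  simp [X, heis_eps, heis_e, heis_J, rot, basisVec, vz, vs, PiLp.inner_apply]
  ring

lemma X2 (g : Pt → ℝ) (x : Pt) :
    X heis2 2 g x = fderiv ℝ g x (vz 2) - x.1 3 / 2 * fderiv ℝ g x vs := by
  simp [X, heis_eps, heis_e, heis_J, rot, basisVec, vz, vs, PiLp.inner_apply]
  ring

lemma X3 (g : Pt → ℝ) (x : Pt) :
    X heis2 3 g x = fderiv ℝ g x (vz 3) + x.1 2 / 2 * fderiv ℝ g x vs := by
  simp [X, heis_eps, heis_e, heis_J, rot, basisVec, vz, vs, PiLp.inner_apply]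
  ring

lemma hNinv {x : Pt} (hx : NN x ≠ 0) :
    HasFDerivAt (fun y => (NN y)⁻¹) ((-((NN x)⁻¹) ^ 2) • dN x) x := by
  have := (hasDerivAt_inv hx).comp_hasFDerivAt x (hN x)
  refine HasFDerivAt.congr_fderiv this ?_
  rw [inv_pow]

lemma hff {x : Pt} (hx : NN x ≠ 0) :
    HasFDerivAt ff ((-16 * ((NN x)⁻¹) ^ 2) • dN x) x := by
  have := (hNinv hx).const_mul 16
  refine HasFDerivAt.congr_fderiv this ?_
  refine ContinuousLinearMap.ext fun v => ?_
  simp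
  ring

lemma Xf0 {x : Pt} (hx : NN x ≠ 0) : X heis2 0 ff x = -16 * ((NN x)⁻¹) ^ 2 * M0 x := by
  rw [X0, (hff hx).fderiv]
  simp [dN, vz, vs, basisVec, M0]
  ring

lemma Xf1 {x : Pt} (hx : NN x ≠ 0) : X heis2 1 ff x = -16 * ((NN x)⁻¹) ^ 2 * M1 x := by
  rw [X1, (hff hx).fderiv]
  simp [dN, vz, vs, basisVec, M1]
  ring

lemma Xf2 {x : Pt} (hx : NN x ≠ 0) : X heis2 2 ff x = -16 * ((NN x)⁻¹) ^ 2 * M2 x := by
  rw [X2, (hff hx).fderiv]
  simp [dN, vz, vs, basisVec, M2]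
  ring

lemma Xf3 {x : Pt} (hx : NN x ≠ 0) : X heis2 3 ff x = -16 * ((NN x)⁻¹) ^ 2 * M3 x := by
  rw [X3, (hff hx).fderiv]
  simp [dN, vz, vs, basisVec, M3]
  ring

lemma sum_M_sq (x : Pt) :
    M0 x ^ 2 + M1 x ^ 2 + M2 x ^ 2 + M3 x ^ 2 = 16 * rr x * NN x := by
  simp only [M0, M1, M2, M3, NN, rr]
  ring

/-- The flux attached to a polynomial `M`. -/
noncomputable def flux (M : Pt → ℝ) (x : Pt) : ℝ := -16 * ((NN x)⁻¹) ^ 2 * M x

lemma fderiv_flux {M : Pt → ℝ} {x : Pt} {M' : Pt →L[ℝ] ℝ} (hx : NN x ≠ 0)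
    (hM : HasFDerivAt M M' x) (v : Pt) :
    fderiv ℝ (flux M) x v =
      -16 * ((NN x)⁻¹) ^ 2 * M' v + 32 * ((NN x)⁻¹) ^ 3 * dN x v * M x := by
  have := (((hNinv hx).pow 2).const_mul (-16)).mul hM
  have h2 : fderiv ℝ (flux M) x = _ := this.fderiv
  rw [h2]
  simp
  ring

lemma dflux0 {x : Pt} (hx : NN x ≠ 0) : fderiv ℝ (flux M0) x (vz 0) =
    -16 * ((NN x)⁻¹) ^ 2 * (4 * rr x + 8 * x.1 0 ^ 2 - 4) +
      32 * ((NN x)⁻¹) ^ 3 * (4 * rr x * x.1 0 - 4 * x.1 0) * M0 x := by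
  have := (((((hr x).const_mul 4).mul (hz 0 x)).sub ((hz 0 x).const_mul 4)).sub
    (((hz 1 x).mul (hs x)).const_mul 16))
  rw [fderiv_flux (M := M0) hx this]
  simp [dr, dN, vz, basisVec]
  left
  ring

lemma dflux1 {x : Pt} (hx : NN x ≠ 0) : fderiv ℝ (flux M1) x (vz 1) =
    -16 * ((NN x)⁻¹) ^ 2 * (4 * rr x + 8 * x.1 1 ^ 2 - 4) +
      32 * ((NN x)⁻¹) ^ 3 * (4 * rr x * x.1 1 - 4 * x.1 1) * M1 x := by
  have := (((((hr x).const_mul 4).mul (hz 1 x)).sub ((hz 1 x).const_mul 4)).add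
    (((hz 0 x).mul (hs x)).const_mul 16))
  rw [fderiv_flux (M := M1) hx this]
  simp [dr, dN, vz, basisVec]
  left
  ring

lemma dflux2 {x : Pt} (hx : NN x ≠ 0) : fderiv ℝ (flux M2) x (vz 2) =
    -16 * ((NN x)⁻¹) ^ 2 * (4 * rr x + 8 * x.1 2 ^ 2 + 4) +
      32 * ((NN x)⁻¹) ^ 3 * (4 * rr x * x.1 2 + 4 * x.1 2) * M2 x := by
  have := (((((hr x).const_mul 4).mul (hz 2 x)).add ((hz 2 x).const_mul 4)).sub
    (((hz 3 x).mul (hs x)).const_mul 16))
  rw [fderiv_flux (M := M2) hx this]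
  simp [dr, dN, vz, basisVec]
  left
  ring

lemma dflux3 {x : Pt} (hx : NN x ≠ 0) : fderiv ℝ (flux M3) x (vz 3) =
    -16 * ((NN x)⁻¹) ^ 2 * (4 * rr x + 8 * x.1 3 ^ 2 + 4) +
      32 * ((NN x)⁻¹) ^ 3 * (4 * rr x * x.1 3 + 4 * x.1 3) * M3 x := by
  have := (((((hr x).const_mul 4).mul (hz 3 x)).add ((hz 3 x).const_mul 4)).add
    (((hz 2 x).mul (hs x)).const_mul 16))
  rw [fderiv_flux (M := M3) hx this]
  simp [dr, dN, vz, basisVec]
  left
  ring

lemma dfluxs {x : Pt} (hx : NN x ≠ 0) : fderiv ℝ (flux Ms) x vs =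
    -16 * ((NN x)⁻¹) ^ 2 * (8 * rr x) +
      32 * ((NN x)⁻¹) ^ 3 * (32 * x.2) * Ms x := by
  have := ((hr x).mul (hs x)).const_mul 8
  rw [fderiv_flux (M := Ms) hx this]
  simp [dr, dN, vs]

lemma div_flux {x : Pt} (hx : NN x ≠ 0) :
    fderiv ℝ (flux M0) x (vz 0) + fderiv ℝ (flux M1) x (vz 1) + fderiv ℝ (flux M2) x (vz 2) +
      fderiv ℝ (flux M3) x (vz 3) + fderiv ℝ (flux Ms) x vs = 0 := by
  rw [dflux0 hx, dflux1 hx, dflux2 hx, dflux3 hx, dfluxs hx]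
  have h1 : (4 * rr x + 8 * x.1 0 ^ 2 - 4) + (4 * rr x + 8 * x.1 1 ^ 2 - 4) +
      (4 * rr x + 8 * x.1 2 ^ 2 + 4) + (4 * rr x + 8 * x.1 3 ^ 2 + 4) + 8 * rr x = 32 * rr x := by
    simp only [rr]; ring
  have h2 : (4 * rr x * x.1 0 - 4 * x.1 0) * M0 x + (4 * rr x * x.1 1 - 4 * x.1 1) * M1 x +
      (4 * rr x * x.1 2 + 4 * x.1 2) * M2 x + (4 * rr x * x.1 3 + 4 * x.1 3) * M3 x +
      (32 * x.2) * Ms x = 16 * rr x * NN x := by
    simp only [M0, M1, M2, M3, Ms, NN, rr]; ring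
  have h3 : NN x * (NN x)⁻¹ = 1 := mul_inv_cancel₀ hx
  linear_combination (-16 * ((NN x)⁻¹) ^ 2) * h1 + (32 * ((NN x)⁻¹) ^ 3) * h2 +
    (512 * rr x * ((NN x)⁻¹) ^ 2) * h3

lemma pairing {x : Pt} (hx : NN x ≠ 0) (φ : Pt → ℝ) :
    ∑ i : Fin 4, X heis2 i ff x * X heis2 i φ x =
      flux M0 x * fderiv ℝ φ x (vz 0) + flux M1 x * fderiv ℝ φ x (vz 1) +
        flux M2 x * fderiv ℝ φ x (vz 2) + flux M3 x * fderiv ℝ φ x (vz 3) +
        flux Ms x * fderiv ℝ φ x vs := by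
  rw [Fin.sum_univ_four, Xf0 hx, Xf1 hx, Xf2 hx, Xf3 hx, X0, X1, X2, X3]
  simp only [flux, M0, M1, M2, M3, Ms, rr]
  ring

lemma contDiffAt_flux {M : Pt → ℝ} (hM : ContDiff ℝ 1 M) {x : Pt} (hx : NN x ≠ 0) :
    ContDiffAt ℝ 1 (flux M) x := by
  have h1 : ContDiffAt ℝ 1 (fun y => (NN y)⁻¹) x := (contDiff_NN 1).contDiffAt.inv hx
  exact ((contDiffAt_const.mul (h1.pow 2)).mul hM.contDiffAt)

lemma contDiff_M : ContDiff ℝ 1 M0 ∧ ContDiff ℝ 1 M1 ∧ ContDiff ℝ 1 M2 ∧ ContDiff ℝ 1 M3 ∧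
    ContDiff ℝ 1 Ms := by
  have h0 := contDiff_z 0 1
  have h1 := contDiff_z 1 1
  have h2 := contDiff_z 2 1
  have h3 := contDiff_z 3 1
  have h4 := contDiff_s 1
  have h5 := contDiff_rr 1
  refine ⟨?_, ?_, ?_, ?_, ?_⟩
  · unfold M0; fun_prop
  · unfold M1; fun_prop
  · unfold M2; fun_prop
  · unfold M3; fun_prop
  · unfold Ms; fun_prop

end Pool.Agent.MP_1048c2_an

end

section

namespace Pool.Agent.MP_1048c2_an

open MeasureTheory Filter Topology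

lemma continuous_mul_of_tsupport {W ψ : Pt → ℝ} (hψ : Continuous ψ)
    (hW : ∀ x ∈ tsupport ψ, ContinuousAt W x) : Continuous (fun x => W x * ψ x) := by
  rw [continuous_iff_continuousAt]
  intro x
  by_cases hx : x ∈ tsupport ψ
  · exact (hW x hx).mul hψ.continuousAt
  · have h0 : ψ =ᶠ[𝓝 x] fun _ => 0 := notMem_tsupport_iff_eventuallyEq.mp hx
    have h1 : (fun y => W y * ψ y) =ᶠ[𝓝 x] fun _ => 0 := by
      filter_upwards [h0] with y hy
      simp [hy]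
    exact (continuousAt_congr h1).mpr continuousAt_const

variable {μ : Measure Pt} [μ.IsAddHaarMeasure]

lemma integrable_mul_of_tsupport {W ψ : Pt → ℝ} (hψ : Continuous ψ)
    (hc : HasCompactSupport ψ) (hW : ∀ x ∈ tsupport ψ, ContinuousAt W x) :
    Integrable (fun x => W x * ψ x) μ :=
  (continuous_mul_of_tsupport hψ hW).integrable_of_hasCompactSupport hc.mul_left

lemma by_parts {W φ : Pt → ℝ} (hφ : ContDiff ℝ 1 φ) (hc : HasCompactSupport φ)
    (hW : ∀ x ∈ tsupport φ, ContDiffAt ℝ 1 W x) (v : Pt) :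
    Integrable (fun x => W x * fderiv ℝ φ x v) μ ∧
      Integrable (fun x => fderiv ℝ W x v * φ x) μ ∧
      ∫ x, W x * fderiv ℝ φ x v ∂μ = -∫ x, fderiv ℝ W x v * φ x ∂μ := by
  have hcont : Continuous (fun x => fderiv ℝ φ x v) :=
    (hφ.continuous_fderiv (by simp)).clm_apply continuous_const
  have hc' : HasCompactSupport (fun x => fderiv ℝ φ x v) := hc.fderiv_apply ℝ v
  have hsub : tsupport (fun x => fderiv ℝ φ x v) ⊆ tsupport φ := tsupport_fderiv_apply_subset ℝ v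
  have h1 : Integrable (fun x => W x * fderiv ℝ φ x v) μ :=
    integrable_mul_of_tsupport hcont hc' fun x hx => (hW x (hsub hx)).continuousAt
  have h2 : Integrable (fun x => fderiv ℝ W x v * φ x) μ :=
    integrable_mul_of_tsupport hφ.continuous hc fun x hx =>
      ((hW x hx).continuousAt_fderiv (by simp)).clm_apply continuousAt_const
  have h3 : Integrable (fun x => W x * φ x) μ :=
    integrable_mul_of_tsupport hφ.continuous hc fun x hx => (hW x hx).continuousAt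
  refine ⟨h1, h2, ?_⟩
  exact integral_mul_fderiv_eq_neg_fderiv_mul_of_integrable h2 h1 h3
    (fun x hx => (hW x hx).differentiableAt (by simp))
    (fun x _ => hφ.differentiable (by simp) x)

omit [μ.IsAddHaarMeasure] in
lemma integral_add5 {a b c d e : Pt → ℝ} (ha : Integrable a μ) (hb : Integrable b μ)
    (hc : Integrable c μ) (hd : Integrable d μ) (he : Integrable e μ) :
    ∫ x, (a x + b x + c x + d x + e x) ∂μ =
      (∫ x, a x ∂μ) + (∫ x, b x ∂μ) + (∫ x, c x ∂μ) + (∫ x, d x ∂μ) + ∫ x, e x ∂μ := by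
  have h1 : ∫ x, (a x + b x) ∂μ = (∫ x, a x ∂μ) + ∫ x, b x ∂μ := integral_add ha hb
  have h2 : ∫ x, (a x + b x + c x) ∂μ = (∫ x, (a x + b x) ∂μ) + ∫ x, c x ∂μ :=
    integral_add (ha.add hb) hc
  have h3 : ∫ x, (a x + b x + c x + d x) ∂μ = (∫ x, (a x + b x + c x) ∂μ) + ∫ x, d x ∂μ :=
    integral_add ((ha.add hb).add hc) hd
  have h4 : ∫ x, (a x + b x + c x + d x + e x) ∂μ =
      (∫ x, (a x + b x + c x + d x) ∂μ) + ∫ x, e x ∂μ :=
    integral_add (((ha.add hb).add hc).add hd) he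
  rw [h4, h3, h2, h1]

/-- The domain. -/
def dom : Set Pt := {x | NN x < 16}

lemma continuous_NN : Continuous NN := (contDiff_NN 0).continuous

lemma isOpen_dom : IsOpen dom := isOpen_lt continuous_NN continuous_const

lemma closure_dom_subset : closure dom ⊆ {x | NN x ≤ 16} :=
  closure_lt_subset_le continuous_NN continuous_const

lemma NN_ge_of_not_mem {x : Pt} (hx : x ∉ dom) : 16 ≤ NN x := not_lt.mp hx

lemma NN_ne_of_not_mem {x : Pt} (hx : x ∉ dom) : NN x ≠ 0 := by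
  have := NN_ge_of_not_mem hx
  intro h
  rw [h] at this
  norm_num at this

lemma NN_ne_of_ext {x : Pt} (hx : x ∈ (closure dom)ᶜ) : NN x ≠ 0 :=
  NN_ne_of_not_mem fun h => hx (subset_closure h)

lemma weak_aux (φ : Pt → ℝ) (hφ : ContDiff ℝ 1 φ) (hc : HasCompactSupport φ)
    (hsub : tsupport φ ⊆ (closure dom)ᶜ) :
    IntegrableOn (fun x => horGradNorm heis2 ff x ^ ((2 : ℝ) - 2) *
        ∑ i : Fin 4, X heis2 i ff x * X heis2 i φ x) (closure dom)ᶜ μ ∧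
      ∫ x in (closure dom)ᶜ, horGradNorm heis2 ff x ^ ((2 : ℝ) - 2) *
        ∑ i : Fin 4, X heis2 i ff x * X heis2 i φ x ∂μ = 0 := by
  obtain ⟨c0, c1, c2, c3, cs⟩ := contDiff_M
  have hne : ∀ x ∈ tsupport φ, NN x ≠ 0 := fun x hx => NN_ne_of_ext (hsub hx)
  obtain ⟨a0, b0, e0⟩ :=
    by_parts (μ := μ) hφ hc (fun x hx => contDiffAt_flux c0 (hne x hx)) (vz 0)
  obtain ⟨a1, b1, e1⟩ :=
    by_parts (μ := μ) hφ hc (fun x hx => contDiffAt_flux c1 (hne x hx)) (vz 1)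
  obtain ⟨a2, b2, e2⟩ :=
    by_parts (μ := μ) hφ hc (fun x hx => contDiffAt_flux c2 (hne x hx)) (vz 2)
  obtain ⟨a3, b3, e3⟩ :=
    by_parts (μ := μ) hφ hc (fun x hx => contDiffAt_flux c3 (hne x hx)) (vz 3)
  obtain ⟨a4, b4, e4⟩ :=
    by_parts (μ := μ) hφ hc (fun x hx => contDiffAt_flux cs (hne x hx)) vs
  have hmeas : MeasurableSet (closure dom)ᶜ := isClosed_closure.measurableSet.compl
  set F : Pt → ℝ := fun x =>
    flux M0 x * fderiv ℝ φ x (vz 0) + flux M1 x * fderiv ℝ φ x (vz 1) +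
      flux M2 x * fderiv ℝ φ x (vz 2) + flux M3 x * fderiv ℝ φ x (vz 3) +
      flux Ms x * fderiv ℝ φ x vs with hF
  have hFint : Integrable F μ := (((a0.add a1).add a2).add a3).add a4
  have heq : Set.EqOn F (fun x => horGradNorm heis2 ff x ^ ((2 : ℝ) - 2) *
      ∑ i : Fin 4, X heis2 i ff x * X heis2 i φ x) (closure dom)ᶜ := by
    intro x hx
    simp only [sub_self, Real.rpow_zero, one_mul]
    rw [pairing (NN_ne_of_ext hx)]
  refine ⟨hFint.integrableOn.congr_fun heq hmeas, ?_⟩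
  rw [← setIntegral_congr_fun hmeas heq, setIntegral_eq_integral_of_forall_compl_eq_zero]
  · have hI : ∫ x, F x ∂μ = -∫ x, (fderiv ℝ (flux M0) x (vz 0) * φ x +
        fderiv ℝ (flux M1) x (vz 1) * φ x + fderiv ℝ (flux M2) x (vz 2) * φ x +
        fderiv ℝ (flux M3) x (vz 3) * φ x + fderiv ℝ (flux Ms) x vs * φ x) ∂μ := by
      simp only [hF]
      rw [integral_add5 a0 a1 a2 a3 a4, integral_add5 b0 b1 b2 b3 b4, e0, e1, e2, e3, e4]
      ring
    rw [hI, neg_eq_zero]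
    apply integral_eq_zero_of_ae
    refine Eventually.of_forall fun x => ?_
    by_cases hx : x ∈ tsupport φ
    · have := div_flux (hne x hx)
      simp only [Pi.zero_apply]
      linear_combination (φ x) * this
    · simp [image_eq_zero_of_notMem_tsupport hx]
  · intro x hx
    have hx' : x ∉ tsupport φ := fun h => hx (hsub h)
    have : fderiv ℝ φ x = 0 := by
      have h0 : φ =ᶠ[𝓝 x] fun _ => 0 := notMem_tsupport_iff_eventuallyEq.mp hx'
      rw [h0.fderiv_eq]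
      simp
    simp [hF, this]

lemma weak_ff : IsWeaklyPHarmonicOn heis2 2 ff (closure dom)ᶜ := by
  refine ⟨fun x hx => ?_, fun φ hφ hc hsub => ?_⟩
  · exact (contDiffAt_const.mul
      ((contDiff_NN 1).contDiffAt.inv (NN_ne_of_ext hx))).contDiffWithinAt
  · exact @weak_aux _ (Measure.prod.instIsAddHaarMeasure _ _) φ hφ hc hsub

lemma rr_eq (x : Pt) : rr x = ‖x.1‖ ^ 2 := by rw [norm_sq_euc4, rr]

lemma norm_sq_le (x : Pt) : ‖x‖ ^ 2 ≤ NN x + 2 := by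
  have h1 := norm_sq_euc4 x.1
  have h2 : ‖x.2‖ ^ 2 = x.2 ^ 2 := by simp
  have h3 : ‖x‖ ^ 2 ≤ ‖x.1‖ ^ 2 + ‖x.2‖ ^ 2 := by
    rw [Prod.norm_def]
    rcases max_cases ‖x.1‖ ‖x.2‖ with h | h <;> rw [h.1] <;> nlinarith [sq_nonneg ‖x.1‖,
      sq_nonneg ‖x.2‖]
  rw [h1, h2] at h3
  have h4 : rr x = x.1 0 ^ 2 + x.1 1 ^ 2 + x.1 2 ^ 2 + x.1 3 ^ 2 := rfl
  unfold NN
  nlinarith [sq_nonneg (rr x - 3 / 2), sq_nonneg (x.1 2), sq_nonneg (x.1 3), sq_nonneg x.2]

lemma tendsto_NN : Tendsto NN (cocompact Pt) atTop := by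
  have h1 : Tendsto (fun x : Pt => ‖x‖ ^ 2 + (-2)) (cocompact Pt) atTop :=
    tendsto_atTop_add_const_right _ _
      ((tendsto_pow_atTop two_ne_zero).comp tendsto_norm_cocompact_atTop)
  refine tendsto_atTop_mono (fun x => ?_) h1
  have := norm_sq_le x
  linarith

lemma cap_ff : IsCapacitaryPotential heis2 2 dom ff := by
  refine ⟨weak_ff, fun x hx => ?_, fun x hx => ?_, fun x hx => ?_, ?_⟩
  · exact (continuousAt_const.mul
      (continuous_NN.continuousAt.inv₀ (NN_ne_of_not_mem hx))).continuousWithinAt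
  · have := NN_ge_of_not_mem hx
    have h : 0 < NN x := by linarith
    unfold ff
    positivity
  · have : NN x = 16 := frontier_lt_subset_eq continuous_NN continuous_const hx
    simp [ff, this]
  · have := (tendsto_NN.inv_tendsto_atTop).const_mul 16
    rw [mul_zero] at this
    exact this

lemma bounded_dom : Bornology.IsBounded dom := by
  rw [isBounded_iff_forall_norm_le]
  refine ⟨5, fun x hx => ?_⟩
  have h1 := norm_sq_le x
  have h2 : NN x < 16 := hx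
  nlinarith [norm_nonneg x]

lemma zero_mem_dom : (0 : Pt) ∈ dom := by
  simp [dom, NN, rr]

lemma starConvex_dom : StarConvex ℝ (0 : Pt) dom := by
  intro y hy a b ha hb hab
  have hy' : NN y < 16 := hy
  have hb1 : b ≤ 1 := by linarith
  change NN (a • (0 : Pt) + b • y) < 16
  have key : NN (a • (0 : Pt) + b • y) =
      (1 - b ^ 2) + b ^ 2 * NN y - b ^ 2 * (1 - b ^ 2) * rr y ^ 2 := by
    simp [NN, rr]
    ring
  have h1 : 0 ≤ b ^ 2 := sq_nonneg b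
  have h2 : b ^ 2 ≤ 1 := by nlinarith
  have h3 : 0 ≤ b ^ 2 * (1 - b ^ 2) * rr y ^ 2 :=
    mul_nonneg (mul_nonneg h1 (by linarith)) (sq_nonneg _)
  rw [key]
  have h4 : b ^ 2 * NN y ≤ b ^ 2 * 16 := mul_le_mul_of_nonneg_left hy'.le h1
  rcases eq_or_lt_of_le h2 with h | h
  · rw [h]; linarith
  · linarith

lemma connected_dom : IsConnected dom :=
  (starConvex_dom.isPathConnected zero_mem_dom).isConnected

lemma smooth_dom : IsSmoothBoundedDomain dom := by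
  refine ⟨isOpen_dom, connected_dom, bounded_dom, fun x => NN x - 16, fun n => (contDiff_NN n).sub contDiff_const, ?_, fun x hx h => ?_⟩
  · ext x
    simp [dom]
  · rw [((hN x).sub_const 16).fderiv] at h
    have h1 : dN x x = 0 := by rw [h]; rfl
    have h2 : dN x x = 2 * (NN x - 1) + 2 * rr x ^ 2 := by
      simp [dN, NN, rr]
      ring
    have h3 : NN x = 16 := by linarith
    nlinarith [sq_nonneg (rr x)]

lemma P_ff {x : Pt} (hx : x ∈ (closure dom)ᶜ) :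
    pFunction heis2 2 ff x = cConst 4 1 2 2 ^ (2 : ℝ) * ‖x.1‖ ^ (2 : ℝ) := by
  have hne := NN_ne_of_ext hx
  have hc : cConst 4 1 2 2 = 1 := by norm_num [cConst, homDim]
  have he : (2 : ℝ) * (homDim 4 1 + 2 - 2) / (homDim 4 1 - 2) = (3 : ℕ) := by norm_num [homDim]
  unfold pFunction horGradNorm
  rw [hc, he, Real.rpow_natCast, Real.rpow_two, Real.rpow_two, Real.rpow_two,
    Real.sq_sqrt (Finset.sum_nonneg fun i _ => sq_nonneg _), Fin.sum_univ_four,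
    Xf0 hne, Xf1 hne, Xf2 hne, Xf3 hne, ← rr_eq]
  have h := sum_M_sq x
  have h2 : (-16 * (NN x)⁻¹ ^ 2 * M0 x) ^ 2 + (-16 * (NN x)⁻¹ ^ 2 * M1 x) ^ 2 +
      (-16 * (NN x)⁻¹ ^ 2 * M2 x) ^ 2 + (-16 * (NN x)⁻¹ ^ 2 * M3 x) ^ 2 =
      256 * (NN x)⁻¹ ^ 4 * (16 * rr x * NN x) := by
    rw [← h]; ring
  rw [h2]
  unfold ff
  field_simp
  ring

/-- Exchange of the two complex coordinates. -/
noncomputable def swp (x : Pt) : Pt := (!₂[x.1 2, x.1 3, x.1 0, x.1 1], x.2)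

lemma continuous_swp : Continuous swp := by
  have h0 := (contDiff_z 0 0).continuous
  have h1 := (contDiff_z 1 0).continuous
  have h2 := (contDiff_z 2 0).continuous
  have h3 := (contDiff_z 3 0).continuous
  unfold swp
  refine Continuous.prodMk ?_ continuous_snd
  refine (PiLp.continuous_toLp 2 _).comp ?_
  refine continuous_pi fun i => ?_
  fin_cases i <;> simpa

lemma norm_swp (x : Pt) : ‖(swp x).1‖ ^ 4 = ‖x.1‖ ^ 4 := by
  have : ‖(swp x).1‖ ^ 2 = ‖x.1‖ ^ 2 := by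
    rw [norm_sq_euc4, norm_sq_euc4]
    simp [swp]
    ring
  calc ‖(swp x).1‖ ^ 4 = (‖(swp x).1‖ ^ 2) ^ 2 := by ring
    _ = (‖x.1‖ ^ 2) ^ 2 := by rw [this]
    _ = ‖x.1‖ ^ 4 := by ring

lemma not_ball (R : ℝ) (σ₀ : ℝ) : closure dom ≠ closure (gaugeBall R σ₀) := by
  intro h
  have hmaps : Set.MapsTo swp (gaugeBall R σ₀) (gaugeBall R σ₀) := by
    intro x hx
    have hx' : ‖x.1‖ ^ 4 + 16 * ‖x.2 - σ₀‖ ^ 2 < R ^ 4 := hx
    change ‖(swp x).1‖ ^ 4 + 16 * ‖x.2 - σ₀‖ ^ 2 < R ^ 4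
    rwa [norm_swp]
  have hcl := hmaps.closure continuous_swp
  let x₀ : Pt := (!₂[2, 0, 0, 0], 0)
  have h0 : x₀ ∈ dom := by
    simp [dom, NN, rr, x₀]
    norm_num
  have h1 : swp x₀ ∈ closure dom := by
    rw [h]
    apply hcl
    rw [← h]
    exact subset_closure h0
  have h2 : NN (swp x₀) ≤ 16 := closure_dom_subset h1
  simp [NN, rr, swp, x₀] at h2
  norm_num at h2

theorem main :
    ∃ (G : HeisenbergType 4 1 E4 ℝ) (Ω : Set Pt) (f : Pt → ℝ) (R : ℝ),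
      IsSmoothBoundedDomain Ω ∧ IsCapacitaryPotential G 2 Ω f ∧ 0 < R ∧ PIdentity G 2 R Ω f ∧
      ∀ (R' σ₀ : ℝ), closure Ω ≠ closure (gaugeBall R' σ₀) :=
  ⟨heis2, dom, ff, 2, smooth_dom, cap_ff, two_pos, fun _ hx => P_ff hx, not_ball⟩

end Pool.Agent.MP_1048c2_an

end
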